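import Pool.Agent.Q225.Add.Final

set_option autoImplicit false

/-!
# Matrix multiplication if only the additions are counted

Definitions: `Vr`, `Rf`, `ent`, `Alone`, `Mon`, `Una`, `FreeProducts`, `FreeUnary`, `addsP`, `addsU`,
`mixedAdds`, `SuperlinearTwo` are in `Pool.Agent.Q225.Add.Defs`; `trank`, `ComputesMM`, `sizeMM`,
`growth`, `omega`, `Superlinear` in `Pool.Agent.W956.KF.Defs`; `Circuit`, `Circuit.poly`,
`Circuit.size` in `Pool.Agent.H522R2.Circuit`.

Proof. For an element `f ≠ 0` of the field `K` of rational functions in the entries of `A` and `B` let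
`ℓ f` be the matrix of the mixed second derivatives of `log f` (rows: the entries of `A`, columns: the
entries of `B`) and `p f` the matrix of rank one of the products of the first derivatives of `f`. Then
`ℓ (f g) = ℓ f + ℓ g`, `ℓ f = 0` if `f` depends on `A` alone or on `B` alone, and `ℓ (u + v)` is a
linear combination over `K` of `ℓ u`, `ℓ v`, `p u`, `p v`, `p (u + v)`. So after `s` additions all
matrices `ℓ f` are in the span of `3 s` matrices of rank one. For the entries `c` of `A B` the matrices
of the mixed second derivatives, which are combinations of `ℓ c` and `p c`, form the tensor of matrix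
multiplication. If instead all functions of one variable are free then the second derivatives
themselves are in the span of the matrices `p h` for the `s` results `h` of the additions.
-/

namespace Pool.Agent.Results.MP_e72dc0_lc.AdditionsAlone

open Pool.Agent.H522R2 Pool.Agent.W956.KF Pool.Agent.Q225.Add

/-- `FreeProducts F m s`: the product `A B` of two generic `m × m` matrices over `F` can be computed
with `s` additions if all multiplications and divisions are free and all rational functions which
depend on `A` alone or on `B` alone are free; `addsP F m` is the least such `s`. `FreeUnary F m s`,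
`addsU F m`: the same if instead all rational functions of one earlier result, and all functions of
`A` alone or of `B` alone, are free. `trank F m m m` is the rank of the tensor of `m × m` matrix
multiplication, `omega F` its exponent, `sizeMM F m` is `S_F(MM_m)`, and `mixedAdds C` is the number of
`+` gates of the circuit `C` whose value depends on both matrices. `growth f` is the growth exponent
of `f` as a function of `m`.

(1) For every field: the rank over the field of rational functions is at most `3 s + m ^ 2` and `s`,
respectively; for infinite fields the same holds for the rank over `F`. (2) Circuits: the number of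
mixed `+` gates is such an `s`, and `addsP F m ≤ sizeMM F m`; `addsU F m ≤ 3 sizeMM F m` if the
characteristic is not `2`. (3) For infinite `F` the growth exponents of `addsP F`, of `addsU F`
(characteristic not `2`) and of `sizeMM F` are `omega F`, and superlinear lower bounds in the sense of
the question are equivalent for the three functions (for `addsP F` we require them for `m ≥ 2`, as
`addsP F 1 = 0`). An upper bound `D m ^ τ` for `addsP F m` for infinitely many `m` implies
`omega F ≤ τ`. (4) For all large `m` and all infinite `F`: `addsP F m ≥ (2 / 3 - ε) m ^ 2` and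
`addsU F m ≥ (3 - ε) m ^ 2` (characteristic not `2`). -/
theorem result :
    (∀ (F : Type) [Field F] (m s : ℕ),
      (FreeProducts F m s → trank (Rf F m) m m m ≤ 3 * s + m ^ 2) ∧
      (FreeUnary F m s → trank (Rf F m) m m m ≤ s)) ∧
    (∀ (F : Type) [Field F] [Infinite F] (m s : ℕ),
      (FreeProducts F m s → trank F m m m ≤ 3 * s + m ^ 2) ∧
      (FreeUnary F m s → trank F m m m ≤ s)) ∧
    (∀ (F : Type) [Field F] (m : ℕ),
      (∀ C : Circuit F (Vr m), ComputesMM C →
        FreeProducts F m (mixedAdds C) ∧ mixedAdds C ≤ C.size) ∧
      FreeProducts F m (addsP F m) ∧ addsP F m ≤ sizeMM F m ∧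
      ((2 : F) ≠ 0 → FreeUnary F m (addsU F m) ∧ addsU F m ≤ 3 * sizeMM F m)) ∧
    (∀ (F : Type) [Field F] [Infinite F],
      growth (sizeMM F) = omega F ∧ growth (addsP F) = omega F ∧
      ((2 : F) ≠ 0 → growth (addsU F) = omega F) ∧
      (Superlinear (sizeMM F) ↔ 2 < omega F) ∧
      (SuperlinearTwo (addsP F) ↔ Superlinear (sizeMM F)) ∧
      ((2 : F) ≠ 0 → (Superlinear (addsU F) ↔ Superlinear (sizeMM F))) ∧
      ∀ τ D : ℝ, {m : ℕ | (addsP F m : ℝ) ≤ D * (m : ℝ) ^ τ}.Infinite → omega F ≤ τ) ∧
    (∀ ε : ℝ, 0 < ε → ∃ m₀ : ℕ, ∀ (F : Type) [Field F] [Infinite F] (m : ℕ), m₀ ≤ m →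
      (2 / 3 - ε) * (m : ℝ) ^ 2 ≤ addsP F m ∧
      ((2 : F) ≠ 0 → (3 - ε) * (m : ℝ) ^ 2 ≤ addsU F m)) := by
  refine ⟨fun F _ m s => ⟨fun h => trank_le (rank_of_freeProducts h),
      fun h => trank_le (rank_of_freeUnary h)⟩,
    fun F _ _ m s => ⟨trank_le_products, trank_le_unary⟩,
    fun F _ m => ⟨fun C hC => ⟨freeProducts_of_circuit C hC, mixedAdds_le_size C⟩,
      freeProducts_addsP F m, addsP_le F m, fun h2 => ⟨freeUnary_addsU h2 m, addsU_le h2 m⟩⟩,
    fun F _ _ => ⟨growth_sizeMM F, growth_addsP F, fun h2 => growth_addsU h2,
      superlinear_sizeMM F, (superlinear_addsP F).trans (superlinear_sizeMM F).symm,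
      fun h2 => (superlinear_addsU h2).trans (superlinear_sizeMM F).symm,
      fun τ D h => omega_le_addsP h⟩, fun ε hε => ?_⟩
  obtain ⟨m₁, h₁⟩ := addsP_eventually ε hε
  obtain ⟨m₂, h₂⟩ := trank_eventually ε hε
  refine ⟨max m₁ m₂, fun F _ _ m hm => ⟨h₁ F m ((le_max_left _ _).trans hm), fun h2 => ?_⟩⟩
  refine (h₂ F m ((le_max_right _ _).trans hm)).trans ?_
  exact_mod_cast trank_le_unary (freeUnary_addsU h2 m)

end Pool.Agent.Results.MP_e72dc0_lc.AdditionsAlone
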