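import Pool.Agent.Q225.Eqv.Fin
import Pool.Agent.Q225.Add.Final

set_option autoImplicit false

/-!
# Equivariant matrix functions are trivial or as hard as matrix multiplication

Definitions: `comb`, `entries`, `Easy` are in `Pool.Agent.Q225.Eqv.Fin`; `gm` in
`Pool.Agent.Q225.Sim.Val`; `Invs`, `Two` in `Pool.Agent.Q225.Sim.Easy`; `general`, `symmetric`, `coefs`,
`CompFrom`, `Exponent` in `Pool.Agent.Q225.Sim.Fin`; `Rt`, `Given`, `CompP`, `CompU` in
`Pool.Agent.Q225.Add.InvDefs`; `Mon`, `Una` in `Pool.Agent.Q225.Add.Defs`; `CompM` in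
`Pool.Agent.Q225.Dich.Meas`; `CompT` in `Pool.Agent.Q225.Dich.Final`; `ReachD`, `ReachLe` in
`Pool.Agent.Q225.Add.Recur`; `sizeMM`, `growth` in `Pool.Agent.W956.KF.Defs`; `gz F V x` (in
`Pool.Agent.W956.KF.RatFun`) is the variable `x` as an element of the field of rational functions.

Proof of the lower bounds. Write `G = ∑ b_r B_r` where `B_r` is the coefficient of `T ^ r` in the
adjugate of `T - X`; the `b_r` are again similarity invariants, and some `b_r` with `r ≤ n - 3` is not
zero. At a diagonal matrix with entries `x_l` in general position the second derivative of the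
entry `(i, k)` of `G` in the directions `(i, j)`, `(j, k)` is the second divided difference
`g[x_i, x_j, x_k]` of the function `g` which gives the eigenvalues of `G`, and the second derivatives for
other indices of this kind vanish. After scaling, these numbers are
`g_i (x_j - x_k) + g_j (x_k - x_i) + g_k (x_i - x_j)`. In the alternating sum of four such arrays, in
which `i` runs through two groups of eigenvalues and `j` through two other ones, they become
`(g_a - g_{a'}) (x_b - x_{b'}) - (g_b - g_{b'}) (x_a - x_{a'})`, which does not depend on `k` and can be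
scaled away; what remains is the tensor of matrix multiplication. These numbers are not zero in
general position: otherwise `g` would be an affine function of the eigenvalues and `G` a combination
of `1` and `X`. On the other hand the arrays have small rank if `G` can be computed with few
operations. For the upper bounds let `K` be the matrix with the columns `X ^ l (1, …, 1)`, which is
computed by repeated squaring. Then `G K = K W`, where the columns of `W` contain the coefficients of
`T ^ l ∑ a_k T ^ k` modulo the characteristic polynomial.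
-/

namespace Pool.Agent.Results.MP_e72dc0_lc.EquivariantMaps

open Pool.Agent.W956.KF Pool.Agent.Q225.Add Pool.Agent.Q225.Dich Pool.Agent.Q225.Sim
  Pool.Agent.Q225.Eqv

/-- For every `n` let `X` be the `n × n` matrix of variables with the entry `v n i j` in the place
`(i, j)`. `Invs F (v n)` is the field of the rational functions of the coefficients of the
characteristic polynomial of `X`, and `comb (v n) a` is the matrix `∑ a_k X ^ k` (`k < n`). Let `w` be the
growth exponent of `S_F(MM_m)` as a function of `m`.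

Let `n ≥ 5`, let `a_k ∈ Invs F (v n)` for all `k`, and suppose that `a_k ≠ 0` for some `k ≥ 2`. If `s`
multiplications and divisions are enough for all entries of `∑ a_k X ^ k`, linear combinations being
free, then `⌊n / 5⌋ ^ w ≤ 8 s`. If `s` additions are enough, functions of one variable being free, then
`⌊n / 5⌋ ^ w ≤ 4 s`. If `s` additions are enough, multiplications and divisions being free, then
`⌊n / 5⌋ ^ w ≤ 12 s + 4 ⌊n / 5⌋ ^ 2`. -/
def LowerBounds (F : Type) [Field F] (σ : ℕ → Type) (v : ∀ n, Fin n → Fin n → σ n) : Prop :=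
  ∀ n : ℕ, 5 ≤ n → ∀ a : Fin n → Rt F (σ n), (∀ k, a k ∈ Invs F (v n)) →
    (∃ k : Fin n, 2 ≤ (k : ℕ) ∧ a k ≠ 0) → ∀ s : ℕ,
    (CompM F (σ n) (entries (comb (v n) a)) s →
      ((n / 5 : ℕ) : ℝ) ^ growth (sizeMM F) ≤ 8 * s) ∧
    (CompU F (σ n) (entries (comb (v n) a)) s →
      ((n / 5 : ℕ) : ℝ) ^ growth (sizeMM F) ≤ 4 * s) ∧
    (CompP F (σ n) (entries (comb (v n) a)) s →
      ((n / 5 : ℕ) : ℝ) ^ growth (sizeMM F) ≤ 12 * s + 4 * ((n / 5 : ℕ) : ℝ) ^ 2)

/-- The dichotomy; notation as above. `Easy (v n) a`: `a_0` and `a_1` are rational functions of `tr X`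
and `tr X ^ 2`, and `a_k = 0` for `k ≥ 2`.
(1) Let `n ≥ 5`, `a_k ∈ Invs F (v n)` and not `Easy (v n) a`. If `s` operations are enough for all
entries of `∑ a_k X ^ k` then `⌊n / 5⌋ ^ w ≤ 24 (s + 5)`.
(2) If `a_0, a_1` can be computed from `tr X`, `tr X ^ 2` with `s` operations then the entries of
`a_0 + a_1 X` can be computed from those of `X` with `3 n ^ 2 + 2 n + s` operations.
(3) If for all `τ > w` the elements `a_{n, k}`, `k < n`, can be computed from the coefficients of the
characteristic polynomial with `O (n ^ τ)` operations then for all `τ > w` the entries of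
`∑ a_{n, k} X ^ k` can be computed from those of `X` with `O (n ^ τ)` operations.
(4) In the situation of (3), if for all `n ≥ 5` the `a_{n, k}` are in `Invs F (v n)` and not
`Easy (v n) (a n)`, then the exponent of the total number of operations for `∑ a_{n, k} X ^ k` is `w`. If
moreover `a_{n, k} ≠ 0` for some `k ≥ 2`, for all `n ≥ 5`, then also the exponents of the numbers of
multiplications and divisions (linear combinations free) and of additions (functions of one
variable free) are `w`. -/
def Dichotomy (F : Type) [Field F] (σ : ℕ → Type) (v : ∀ n, Fin n → Fin n → σ n) : Prop :=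
  (∀ n : ℕ, 5 ≤ n → ∀ a : Fin n → Rt F (σ n), (∀ k, a k ∈ Invs F (v n)) →
    ¬ Easy (v n) a → ∀ s : ℕ, CompT F (σ n) (entries (comb (v n) a)) s →
      ((n / 5 : ℕ) : ℝ) ^ growth (sizeMM F) ≤ 24 * (s + 5)) ∧
  (∀ (n : ℕ) (a₀ a₁ : Rt F (σ n)) (s : ℕ),
    CompFrom F {(gm F (v n)).trace, (gm F (v n) * gm F (v n)).trace} {a₀, a₁} s →
    CompT F (σ n) (entries (a₀ • (1 : Matrix (Fin n) (Fin n) (Rt F (σ n))) + a₁ • gm F (v n)))
      (3 * n ^ 2 + 2 * n + s)) ∧
  (∀ a : ∀ n, Fin n → Rt F (σ n),
    (∀ τ : ℝ, growth (sizeMM F) < τ → ∃ D : ℝ, ∀ n : ℕ, 1 ≤ n →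
      ∃ s : ℕ, (s : ℝ) ≤ D * (n : ℝ) ^ τ ∧
      CompFrom F (coefs F (v n)) (Set.range (a n)) s) →
    (∀ τ : ℝ, growth (sizeMM F) < τ → ∃ D : ℝ, ∀ n : ℕ, 1 ≤ n →
      ∃ s : ℕ, (s : ℝ) ≤ D * (n : ℝ) ^ τ ∧
      CompT F (σ n) (entries (comb (v n) (a n))) s) ∧
    ((∀ n, 5 ≤ n → (∀ k, a n k ∈ Invs F (v n)) ∧ ¬ Easy (v n) (a n)) →
      Exponent (fun n s => CompT F (σ n) (entries (comb (v n) (a n))) s) =
        growth (sizeMM F)) ∧
    ((∀ n, 5 ≤ n → (∀ k, a n k ∈ Invs F (v n)) ∧ ∃ k : Fin n, 2 ≤ (k : ℕ) ∧ a n k ≠ 0) →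
      Exponent (fun n s => CompM F (σ n) (entries (comb (v n) (a n))) s) =
        growth (sizeMM F) ∧
      Exponent (fun n s => CompU F (σ n) (entries (comb (v n) (a n))) s) =
        growth (sizeMM F)))

theorem lowerBounds (F : Type) [Field F] [Infinite F] (σ : ℕ → Type) [∀ n, Fintype (σ n)]
    [∀ n, DecidableEq (σ n)] (v : ∀ n, Fin n → Fin n → σ n) (θ : F) (hK : ∀ n, Kd (v n) θ) :
    LowerBounds F σ v := by
  intro n hn a ha h2 s
  rw [growth_sizeMM]
  exact Pool.Agent.Q225.Eqv.lower_all hn (hK n) ha h2 s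

theorem dichotomy (F : Type) [Field F] [CharZero F] (σ : ℕ → Type) [∀ n, Fintype (σ n)]
    [∀ n, DecidableEq (σ n)] (v : ∀ n, Fin n → Fin n → σ n) (θ : F) (hK : ∀ n, Kd (v n) θ) :
    Dichotomy F σ v := by
  unfold Dichotomy
  rw [growth_sizeMM]
  exact ⟨fun n hn a ha h s hs => lower_T hn (hK n) ha h hs,
    fun n a₀ a₁ s h => affine_upper h,
    fun a ha => ⟨fun τ hτ => Pool.Agent.Q225.Eqv.upper_all (fun n => (hK n).pat) ha hτ,
      fun h => exponent_T hK h ha, fun h => exponent_MU hK h ha⟩⟩

/-- `LowerBounds` holds over every infinite field and `Dichotomy` over every field of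
characteristic `0`, for general matrices (`n ^ 2` different variables) and for symmetric matrices
(one variable for every unordered pair of indices). -/
theorem result :
    (∀ (F : Type) [Field F] [Infinite F],
      LowerBounds F (fun n => Fin n × Fin n) general ∧
      LowerBounds F (fun n => Sym2 (Fin n)) symmetric) ∧
    (∀ (F : Type) [Field F] [CharZero F],
      Dichotomy F (fun n => Fin n × Fin n) general ∧
      Dichotomy F (fun n => Sym2 (Fin n)) symmetric) :=
  ⟨fun F _ _ => ⟨lowerBounds F _ general 0 kd_general, lowerBounds F _ symmetric 1 kd_symmetric⟩,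
    fun F _ _ => ⟨dichotomy F _ general 0 kd_general, dichotomy F _ symmetric 1 kd_symmetric⟩⟩

end Pool.Agent.Results.MP_e72dc0_lc.EquivariantMaps
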