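import Pool.Agent.Q225.Smo.UEasy
import Pool.Agent.Q225.Add.Final

set_option autoImplicit false

/-!
# Functions of the singular values are trivial or as hard as matrix multiplication, for arbitrary smooth gates

Definitions: `Aff`, `Avail`, `Computed` are in `Pool.Agent.Q225.Smo.Defs`; `SqMat`, `rotate`, `diagonal`,
`inner`, `Invariant` in `Pool.Agent.Q225.Smo.UDefs`; `trank`, `sizeMM`, `growth` in
`Pool.Agent.W956.KF.Defs`.

`SqMat n` is the space of the real `n × n` matrices, `rotate P Q X = P X Q`, `diagonal x` is the diagonal
matrix with the entries `x i`, `inner X H = ∑ x_{ij} h_{ij}`, and `trank ℝ m m m` the rank of the tensor of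
`m × m` matrix multiplication over `ℝ`.

A network applies in each of its gates an arbitrary function of `k` variables, three times continuously
differentiable at the values which occur, to linear combinations (which are free) of earlier results,
entries of the input and constants. `Computed k L f X` says that near `X` the function `f` is computed by
a network of `L` gates.

Proof. (1) As for functions of the eigenvalues (see `SpectralFunctions`), a network of `L` gates gives a
bound `L (3 k + k²)` for the rank of the trilinear form `D³ f (X)`. (2) The derivative of `f` at `Y`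
vanishes on `Z Y + Y W` for skew symmetric `Z`, `W`. At a positive diagonal matrix with the entries `x_i`
choose signs `η_i`. In suitable directions `v_ab`, supported on the entries `(a, b)` and `(b, a)`, the
third derivative of `f` for a cycle `a`, `b`, `c` is determined by two further derivatives of this equation:
it is the second divided difference of the points `(η_i x_i, η_i f_i)` where `f_i` is the derivative of `f`
with respect to `x_i`. (3) An alternating sum of four arrays of such areas gives the tensor of matrix
multiplication, unless a certain expression in the `x_i` and the signs vanishes; the signs may be chosen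
constant in each of the four groups of indices. (4) The expression is analytic in `x`, so it is nonzero in
general position unless it vanishes identically for all signs. In this case the vector of the `f_i` is
proportional to that of the `x_i`, and `f` is easy. (5) An easy function is constant on the spheres around
`0`, so it is locally a smooth function of the sum of the squares of the entries.
-/

namespace Pool.Agent.Results.MP_e72dc0_lc.SingularValues

open Pool.Agent.W956.KF Pool.Agent.Q225.Add Pool.Agent.Q225.Smo

/-- At every `X ∈ Ω` the derivative of `f` vanishes on all `H` with `∑ x_{ij} h_{ij} = 0` (that is, the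
gradient of `f` at `X` is a multiple of `X`). -/
def Easy {n : ℕ} (Ω : Set (SqMat n)) (f : SqMat n → ℝ) : Prop :=
  ∀ X ∈ Ω, ∀ H : SqMat n, SqMat.inner X H = 0 → fderiv ℝ f X H = 0

/-- Near every `X ∈ Ω` which is not `0` the function `f` is computed by `n ^ 2 + 1` gates of one
variable. -/
def SmallNetworks {n : ℕ} (Ω : Set (SqMat n)) (f : SqMat n → ℝ) : Prop :=
  ∀ X ∈ Ω, X ≠ 0 → Computed 1 (n * n + 1) f X

/-- If near some `X ∈ Ω` the function `f` is computed by `L` gates of `k` variables then `4 k (k + 3) L` is
at least the rank of the tensor of `⌊n / 5⌋ × ⌊n / 5⌋` matrix multiplication over `ℝ`, and at least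
`⌊n / 5⌋ ^ w`, where `w` is the growth exponent of `S_ℝ(MM_m)` as a function of `m`. -/
def LowerBound {n : ℕ} (Ω : Set (SqMat n)) (f : SqMat n → ℝ) : Prop :=
  ∀ X ∈ Ω, ∀ k L : ℕ, Computed k L f X →
    trank ℝ (n / 5) (n / 5) (n / 5) ≤ 4 * k * (k + 3) * L ∧
    ((n / 5 : ℕ) : ℝ) ^ growth (sizeMM ℝ) ≤ 4 * k * (k + 3) * L

/-- **Dichotomy for functions of the singular values.** Let `n ≥ 5` and let `f` be a real analytic function
on an open set `Ω` of real `n × n` matrices, such that `Ω` and `f` are invariant under `X ↦ P X Q` for all
orthogonal `P`, `Q`, and such that the set of the vectors `x` with positive entries for which the diagonal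
matrix with the entries `x i` belongs to `Ω` is connected (for instance `Ω` consists of all matrices, of all
invertible matrices, or of all matrices with all singular values in an open interval). Then `f` is easy and
has small networks, or `f` satisfies the lower bound, for all `k` and near every point of `Ω`. -/
theorem result (n : ℕ) (hn : 5 ≤ n) (Ω : Set (SqMat n)) (f : SqMat n → ℝ) (hΩ : IsOpen Ω)
    (hconn : IsPreconnected {x : Fin n → ℝ | (∀ i, 0 < x i) ∧ SqMat.diagonal x ∈ Ω})
    (hf : AnalyticOnNhd ℝ f Ω) (hinv : SqMat.Invariant Ω f) :
    (Easy Ω f ∧ SmallNetworks Ω f) ∨ LowerBound Ω f := by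
  by_cases hE : ∀ X ∈ Ω, ∀ H : SqMat n, SqMat.inner X H = 0 → fderiv ℝ f X H = 0
  · exact Or.inl ⟨hE, fun X hX hsc => computed_easyU hΩ hf hE hX hsc⟩
  · right
    intro X hX k L hC
    push Not at hE
    have h : UInv Ω f := ⟨hΩ, hconn, hf, hinv⟩
    have h1 := trank_le (h.lower hn hE hX hC)
    have h2 : trank ℝ (n / 5) (n / 5) (n / 5) ≤ 4 * k * (k + 3) * L := by
      refine h1.trans (le_of_eq ?_)
      ring
    refine ⟨h2, ?_⟩
    have h3 : ((n / 5 : ℕ) : ℝ) ^ growth (sizeMM ℝ) ≤ trank ℝ (n / 5) (n / 5) (n / 5) := by
      rw [growth_sizeMM, omega_eq]
      exact rpow_omega_le ℝ (n / 5) (by omega)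
    refine h3.trans ?_
    exact_mod_cast h2

end Pool.Agent.Results.MP_e72dc0_lc.SingularValues
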