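import Pool.Agent.Q225.Smo.SEasy
import Pool.Agent.Q225.Smo.SymMat
import Pool.Agent.Q225.Add.Final

set_option autoImplicit false

/-!
# Functions of the eigenvalues are trivial or as hard as matrix multiplication, for arbitrary smooth gates

Definitions: `Aff`, `Avail`, `Computed` are in `Pool.Agent.Q225.Smo.Defs`; `Sy`, `conj`, `dg`, `tr`, `ip`
in `Pool.Agent.Q225.Smo.SDefs`; `SymMat`, `rotate`, `diagonal`, `trace`, `inner`, `Invariant` in
`Pool.Agent.Q225.Smo.SymMat`; `trank`, `sizeMM`, `growth` in `Pool.Agent.W956.KF.Defs`.

`SymMat n` is the space of the real symmetric `n × n` matrices, `rotate Q X = Q X Qᵀ`, `diagonal x` is the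
diagonal matrix with the entries `x i`, `trace X` the trace of `X`, `inner X H = tr (X H)`, and
`trank ℝ m m m` the rank of the tensor of `m × m` matrix multiplication over `ℝ`.

A network applies in each of its gates an arbitrary function of `k` variables, three times continuously
differentiable at the values which occur, to linear combinations (which are free) of earlier results,
entries of the input and constants. `Computed k L f X` says that near `X` the function `f` is computed by
a network of `L` gates.

Proof. (1) Let `f` be given by `L` gates near `X`. The second derivative along a line, as a function of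
the direction, of each function available in the network is a linear combination of the `L` quadratic
forms of the gates, and the third derivative is a combination of these forms with linear forms as
coefficients and of `L` cubic forms, each a form in the `k` derivatives of the arguments of a gate.
Hence the trilinear form `D³ f (X)` has rank at most `L (3 k + k²)`. (2) The derivative of `f` at `Y`
vanishes on `Z Y - Y Z` for skew symmetric `Z`. Two further derivatives of this equation at a diagonal
matrix with different entries `x_i` determine `D³ f` in the directions `E_ab + E_ba`, `E_bc + E_cb`,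
`E_ca + E_ac`: it is the second divided difference of the points `(x_i, f_i)` where `f_i` is the
derivative of `f` with respect to `x_i`, up to a scaling the area of the triangle with these corners.
(3) In the alternating sum of four arrays of such areas, in which `a` runs through two groups of indices
and `b` through two others, the point with index `c` cancels, and the rest can be scaled away if it is
not zero: this gives the tensor of matrix multiplication. (4) The rest is an analytic function of `x`,
so it is nonzero in general position unless it vanishes identically; in this case it vanishes for all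
choices of the indices, all points `(x_i, f_i)` are on a line, and `f` is easy. (5) An easy function is
constant on the spheres in the spaces of matrices with fixed trace, so it is locally a smooth
function of `tr X` and `tr X²`.
-/

namespace Pool.Agent.Results.MP_e72dc0_lc.SpectralFunctions

open Pool.Agent.W956.KF Pool.Agent.Q225.Add Pool.Agent.Q225.Smo

/-- At every `X ∈ Ω` the derivative of `f` vanishes on all `H` with `tr H = tr (X H) = 0` (that is, the
gradient of `f` at `X` is a linear combination of `1` and `X`). -/
def Easy {n : ℕ} (Ω : Set (SymMat n)) (f : SymMat n → ℝ) : Prop :=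
  ∀ X ∈ Ω, ∀ H : SymMat n, SymMat.trace H = 0 → SymMat.inner X H = 0 → fderiv ℝ f X H = 0

/-- Near every `X ∈ Ω` which is not a multiple of the unit matrix `f` is computed by `n ^ 2 + 1` gates of
two variables. -/
def SmallNetworks {n : ℕ} (Ω : Set (SymMat n)) (f : SymMat n → ℝ) : Prop :=
  ∀ X ∈ Ω, (∀ c : ℝ, X ≠ SymMat.diagonal fun _ => c) → Computed 2 (n * n + 1) f X

/-- If near some `X ∈ Ω` the function `f` is computed by `L` gates of `k` variables then `4 k (k + 3) L` is
at least the rank of the tensor of `⌊n / 5⌋ × ⌊n / 5⌋` matrix multiplication over `ℝ`, and at least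
`⌊n / 5⌋ ^ w`, where `w` is the growth exponent of `S_ℝ(MM_m)` as a function of `m`. -/
def LowerBound {n : ℕ} (Ω : Set (SymMat n)) (f : SymMat n → ℝ) : Prop :=
  ∀ X ∈ Ω, ∀ k L : ℕ, Computed k L f X →
    trank ℝ (n / 5) (n / 5) (n / 5) ≤ 4 * k * (k + 3) * L ∧
    ((n / 5 : ℕ) : ℝ) ^ growth (sizeMM ℝ) ≤ 4 * k * (k + 3) * L

theorem dichotomy (n : ℕ) (hn : 5 ≤ n) (Ω : Set (Sy n)) (f : Sy n → ℝ) (hΩ : IsOpen Ω)
    (hconn : IsPreconnected {x : Fin n → ℝ | dg x ∈ Ω}) (hf : AnalyticOnNhd ℝ f Ω)
    (hinv : ∀ Q ∈ Matrix.orthogonalGroup (Fin n) ℝ, ∀ X ∈ Ω,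
      conj Q X ∈ Ω ∧ f (conj Q X) = f X) :
    ((∀ X ∈ Ω, ∀ H : Sy n, tr H = 0 → ip X H = 0 → fderiv ℝ f X H = 0) ∧
      ∀ X ∈ Ω, (∀ c : ℝ, X ≠ dg fun _ => c) → Computed 2 (n * n + 1) f X) ∨
    (∀ X ∈ Ω, ∀ k L : ℕ, Computed k L f X →
      trank ℝ (n / 5) (n / 5) (n / 5) ≤ 4 * k * (k + 3) * L ∧
      ((n / 5 : ℕ) : ℝ) ^ growth (sizeMM ℝ) ≤ 4 * k * (k + 3) * L) := by
  by_cases hE : ∀ X ∈ Ω, ∀ H : Sy n, tr H = 0 → ip X H = 0 → fderiv ℝ f X H = 0
  · exact Or.inl ⟨hE, fun X hX hsc => computed_easy (by omega) hΩ hf hE hX hsc⟩
  · right
    intro X hX k L hC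
    push Not at hE
    have h : Inv Ω f := ⟨hΩ, hconn, hf, hinv⟩
    have h1 := trank_le (h.lower hn hE hX hC)
    have h2 : trank ℝ (n / 5) (n / 5) (n / 5) ≤ 4 * k * (k + 3) * L := by
      refine h1.trans (le_of_eq ?_)
      ring
    refine ⟨h2, ?_⟩
    have h3 : ((n / 5 : ℕ) : ℝ) ^ growth (sizeMM ℝ) ≤ trank ℝ (n / 5) (n / 5) (n / 5) := by
      rw [growth_sizeMM, omega_eq]
      exact rpow_omega_le ℝ (n / 5) (by omega)
    refine h3.trans ?_
    exact_mod_cast h2

/-- **Dichotomy for functions of the eigenvalues.** Let `n ≥ 5` and let `f` be a real analytic function on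
an open set `Ω` of real symmetric `n × n` matrices, such that `Ω` and `f` are invariant under
`X ↦ Q X Qᵀ` for all orthogonal `Q`, and such that the set of the vectors `x` for which the diagonal
matrix with the entries `x i` belongs to `Ω` is connected (for instance `Ω` is convex: all symmetric
matrices, or those with all eigenvalues in an open interval). Then `f` is easy and has small networks,
or `f` satisfies the lower bound, for all `k` and near every point of `Ω`. -/
theorem result (n : ℕ) (hn : 5 ≤ n) (Ω : Set (SymMat n)) (f : SymMat n → ℝ) (hΩ : IsOpen Ω)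
    (hconn : IsPreconnected {x : Fin n → ℝ | SymMat.diagonal x ∈ Ω})
    (hf : AnalyticOnNhd ℝ f Ω) (hinv : SymMat.Invariant Ω f) :
    (Easy Ω f ∧ SmallNetworks Ω f) ∨ LowerBound Ω f :=
  dichotomy n hn Ω f hΩ hconn hf hinv

end Pool.Agent.Results.MP_e72dc0_lc.SpectralFunctions
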